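import Mathlib
import Pool.Agent.MP_2b113a_an.H83.Defs

/-!
A nonsingular action of a countable group has an equivalent probability measure with a strict,
bounded Radon-Nikodym cocycle. Consequences of elementwise conservativity.
-/

namespace Pool.Agent.MP_2b113a_an.H46

open MeasureTheory Set Filter
open scoped ENNReal NNReal
open Pool.Agent.MP_2b113a_an.H83

/-- A strict bounded Radon-Nikodym cocycle. -/
structure Coc (G : Type) [Group G] {X : Type} [MeasurableSpace X] [MulAction G X]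
    (m : Measure X) where
  w : G → X → ℝ≥0∞
  C : G → ℝ≥0
  meas : ∀ g, Measurable (w g)
  mul : ∀ g h x, w (g * h) x = w h x * w g (h • x)
  one : ∀ x, w 1 x = 1
  le : ∀ g x, w g x ≤ C g
  inv : ∀ g (φ : X → ℝ≥0∞), Measurable φ → ∫⁻ x, φ (g • x) * w g x ∂m = ∫⁻ x, φ x ∂m

variable {G : Type} [Group G] {X : Type} [MeasurableSpace X] [MulAction G X]

omit [MeasurableSpace X] in
theorem image_smul_eq (g : G) (s : Set X) :
    (fun x : X => g • x) '' s = (fun x : X => g⁻¹ • x) ⁻¹' s := by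
  ext x
  constructor
  · rintro ⟨y, hy, rfl⟩
    simpa using hy
  · intro hx
    exact ⟨g⁻¹ • x, hx, by simp⟩

theorem map_ac {μ : Measure X} (h : EC G μ) (g : G) : μ.map (fun x : X => g • x) ≪ μ := by
  refine Measure.AbsolutelyContinuous.mk fun s hs h0 => ?_
  rw [Measure.map_apply (h.meas g) hs]
  have := h.ns g⁻¹ s hs h0
  rwa [image_smul_eq, inv_inv] at this

/-- Iterated averaging. -/
noncomputable def avg (a : G → ℝ≥0∞) (μ : Measure X) : ℕ → Measure X
  | 0 => μ
  | n + 1 => Measure.sum fun g : G => a g • (avg a μ n).map (fun x : X => g • x)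

theorem avg_univ [Countable G] {μ : Measure X} [IsProbabilityMeasure μ] (h : EC G μ)
    (a : G → ℝ≥0∞) (n : ℕ) : avg a μ n univ = (∑' g, a g) ^ n := by
  induction n with
  | zero => simp [avg]
  | succ n ih =>
    rw [avg, Measure.sum_apply _ MeasurableSet.univ]
    simp only [Measure.smul_apply, smul_eq_mul]
    have : ∀ g : G, (avg a μ n).map (fun x : X => g • x) univ = (∑' g, a g) ^ n := fun g => by
      rw [Measure.map_apply (h.meas g) MeasurableSet.univ, preimage_univ, ih]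
    simp only [this]
    rw [ENNReal.tsum_mul_right, pow_succ']

theorem avg_ac [Countable G] {μ : Measure X} (h : EC G μ) (a : G → ℝ≥0∞) (n : ℕ) :
    avg a μ n ≪ μ := by
  induction n with
  | zero => exact Measure.AbsolutelyContinuous.rfl
  | succ n ih =>
    refine Measure.AbsolutelyContinuous.mk fun s hs h0 => ?_
    rw [avg, Measure.sum_apply _ hs]
    simp only [Measure.smul_apply, smul_eq_mul, ENNReal.tsum_eq_zero, mul_eq_zero]
    intro g
    right
    exact ((ih.map (h.meas g)).trans (map_ac h g)) h0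

theorem exists_dominated [Countable G] {μ : Measure X} [IsProbabilityMeasure μ] (h : EC G μ) :
    ∃ m : Measure X, IsProbabilityMeasure m ∧ m ≪ μ ∧ μ ≪ m ∧
      ∀ g : G, ∃ C : ℝ≥0, ∀ s, MeasurableSet s → m.map (fun x : X => g • x) s ≤ C * m s := by
  obtain ⟨a, ha0, ha⟩ := ENNReal.exists_pos_sum_of_countable (ε := 1) one_ne_zero G
  set m₀ : Measure X := Measure.sum (avg (fun g => (a g : ℝ≥0∞)) μ) with hm₀
  have hfin : m₀ univ ≠ ∞ := by
    rw [hm₀, Measure.sum_apply _ MeasurableSet.univ]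
    simp only [avg_univ h]
    rw [ENNReal.tsum_geometric]
    simp only [ne_eq, ENNReal.inv_eq_top]
    exact (tsub_pos_of_lt ha).ne'
  have hle : ∀ s, μ s ≤ m₀ s := fun s => Measure.le_sum (avg (fun g => (a g : ℝ≥0∞)) μ) 0 s
  have hne : m₀ univ ≠ 0 := by
    intro h0
    have := hle univ
    rw [h0] at this
    simp at this
  refine ⟨(m₀ univ)⁻¹ • m₀, ⟨?_⟩, ?_, ?_, fun g => ⟨(a g)⁻¹, fun s hs => ?_⟩⟩
  · simp [ENNReal.inv_mul_cancel hne hfin]
  · refine Measure.AbsolutelyContinuous.mk fun s hs h0 => ?_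
    rw [Measure.smul_apply, hm₀, Measure.sum_apply _ hs]
    simp only [smul_eq_mul, mul_eq_zero, ENNReal.tsum_eq_zero]
    right
    exact fun n => avg_ac h _ n h0
  · refine Measure.AbsolutelyContinuous.mk fun s hs h0 => ?_
    rw [Measure.smul_apply, smul_eq_mul, mul_eq_zero] at h0
    rcases h0 with h0 | h0
    · exact absurd (ENNReal.inv_eq_zero.1 h0) hfin
    · exact le_antisymm (h0 ▸ hle s) zero_le
  · rw [Measure.map_apply (h.meas g) hs, Measure.smul_apply, Measure.smul_apply, smul_eq_mul,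
      smul_eq_mul, mul_left_comm]
    gcongr
    have hag : (a g : ℝ≥0∞) ≠ 0 := by exact_mod_cast (ha0 g).ne'
    rw [ENNReal.coe_inv (ha0 g).ne', hm₀, Measure.sum_apply _ (h.meas g hs),
      Measure.sum_apply _ hs]
    calc ∑' n, avg (fun g => (a g : ℝ≥0∞)) μ n ((fun x : X => g • x) ⁻¹' s)
        ≤ ∑' n, (a g : ℝ≥0∞)⁻¹ * avg (fun g => (a g : ℝ≥0∞)) μ (n + 1) s := by
          refine ENNReal.tsum_le_tsum fun n => ?_
          rw [avg, Measure.sum_apply _ hs]
          have h1 := ENNReal.le_tsum (f := fun k : G => ((a k : ℝ≥0∞) •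
            (avg (fun g => (a g : ℝ≥0∞)) μ n).map (fun x : X => k • x)) s) g
          rw [Measure.smul_apply, smul_eq_mul, Measure.map_apply (h.meas g) hs] at h1
          calc _ = (a g : ℝ≥0∞)⁻¹ * ((a g : ℝ≥0∞) *
                avg (fun g => (a g : ℝ≥0∞)) μ n ((fun x : X => g • x) ⁻¹' s)) := by
                rw [← mul_assoc, ENNReal.inv_mul_cancel hag ENNReal.coe_ne_top, one_mul]
            _ ≤ _ := by gcongr
      _ = (a g : ℝ≥0∞)⁻¹ * ∑' n, avg (fun g => (a g : ℝ≥0∞)) μ (n + 1) s :=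
          ENNReal.tsum_mul_left
      _ ≤ _ := mul_le_mul_right (ENNReal.tsum_comp_le_tsum_of_injective (f := fun n => n + 1)
            (add_left_injective 1) (fun n => avg (fun g => (a g : ℝ≥0∞)) μ n s)) _

theorem EC.of_equiv {μ m : Measure X} (h : EC G μ) (h1 : m ≪ μ) (h2 : μ ≪ m) : EC G m where
  meas := h.meas
  ns := fun g s hs h0 => h1 (h.ns g s hs (h2 h0))
  cons := fun g s hs h0 => h1 (h.cons g s hs fun k hk => h2 (h0 k hk))

theorem coc_unique {m : Measure X} [SigmaFinite m] (h : EC G m) (g : G) {u v : X → ℝ≥0∞}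
    (hu : Measurable u) (hv : Measurable v)
    (H : ∀ φ : X → ℝ≥0∞, Measurable φ →
      ∫⁻ x, φ (g • x) * u x ∂m = ∫⁻ x, φ (g • x) * v x ∂m) : u =ᵐ[m] v := by
  refine ae_eq_of_forall_setLIntegral_eq_of_sigmaFinite hu hv fun s hs _ => ?_
  have := H (fun y => s.indicator 1 (g⁻¹ • y))
    ((measurable_one.indicator hs).comp (h.meas g⁻¹))
  simp only [inv_smul_smul] at this
  rw [← lintegral_indicator hs, ← lintegral_indicator hs]
  convert this using 3 <;> · rename_i x; by_cases hx : x ∈ s <;> simp [hx]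

theorem exists_coc [Countable G] {m : Measure X} [IsProbabilityMeasure m] (h : EC G m)
    (hC : ∀ g : G, ∃ C : ℝ≥0, ∀ s, MeasurableSet s → m.map (fun x : X => g • x) s ≤ C * m s) :
    Nonempty (Coc G m) := by
  classical
  choose C hC using hC
  set w₀ : G → X → ℝ≥0∞ := fun g => (m.map (fun x : X => g⁻¹ • x)).rnDeriv m with hw₀
  have hm : ∀ g, Measurable (w₀ g) := fun g => Measure.measurable_rnDeriv _ _
  have hd : ∀ g, m.withDensity (w₀ g) = m.map (fun x : X => g⁻¹ • x) := fun g =>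
    Measure.withDensity_rnDeriv_eq _ _ (map_ac h g⁻¹)
  have hinv : ∀ g (φ : X → ℝ≥0∞), Measurable φ →
      ∫⁻ x, φ (g • x) * w₀ g x ∂m = ∫⁻ x, φ x ∂m := by
    intro g φ hφ
    have h1 := lintegral_withDensity_eq_lintegral_mul m (hm g) (hφ.comp (h.meas g))
    rw [hd, lintegral_map (hφ.comp (h.meas g)) (h.meas g⁻¹)] at h1
    simp only [Function.comp, smul_inv_smul, Pi.mul_apply] at h1
    rw [h1]
    simp only [mul_comm]
  have hmul : ∀ g k : G, ∀ᵐ x ∂m, w₀ (g * k) x = w₀ k x * w₀ g (k • x) := by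
    intro g k
    refine coc_unique h (g * k) (hm _) ((hm k).mul ((hm g).comp (h.meas k))) fun φ hφ => ?_
    rw [hinv _ φ hφ, ← hinv g φ hφ,
      ← hinv k (fun y => φ (g • y) * w₀ g y) ((hφ.comp (h.meas g)).mul (hm g))]
    refine lintegral_congr fun x => ?_
    rw [mul_smul]
    ring
  have hone : ∀ᵐ x ∂m, w₀ 1 x = 1 := by
    refine coc_unique h (1 : G) (hm _) measurable_const fun φ hφ => ?_
    rw [hinv _ φ hφ]
    simp
  have hle : ∀ g, ∀ᵐ x ∂m, w₀ g x ≤ C g⁻¹ := by
    intro g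
    refine ae_le_of_forall_setLIntegral_le_of_sigmaFinite (hm g) fun s hs _ => ?_
    rw [← withDensity_apply _ hs, hd, setLIntegral_const]
    exact hC g⁻¹ s hs
  set X₀ : Set X := {x | (∀ g k : G, w₀ (g * k) x = w₀ k x * w₀ g (k • x)) ∧ w₀ 1 x = 1 ∧
    ∀ g, w₀ g x ≤ C g⁻¹} with hX₀
  have hX₀m : MeasurableSet X₀ := by
    rw [hX₀]
    simp only [ofPred_and, ofPred_forall]
    refine MeasurableSet.inter (MeasurableSet.iInter fun g => MeasurableSet.iInter fun k =>
      measurableSet_eq_fun (hm _) ((hm k).mul ((hm g).comp (h.meas k))))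
      (MeasurableSet.inter (measurableSet_eq_fun (hm _) measurable_const)
        (MeasurableSet.iInter fun g => measurableSet_le (hm g) measurable_const))
  have hX₀ae : ∀ᵐ x ∂m, x ∈ X₀ := by
    filter_upwards [ae_all_iff.2 fun g => ae_all_iff.2 (hmul g), hone, ae_all_iff.2 hle]
      with x h1 h2 h3
    exact ⟨h1, h2, h3⟩
  set X₁ : Set X := {x | ∀ g : G, g • x ∈ X₀} with hX₁
  have hX₁m : MeasurableSet X₁ := by
    rw [hX₁]
    simp only [ofPred_forall]
    exact MeasurableSet.iInter fun g => h.meas g hX₀m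
  have hX₁ae : ∀ᵐ x ∂m, x ∈ X₁ := by
    refine ae_all_iff.2 fun g => ?_
    exact (ae_map_iff (h.meas g).aemeasurable hX₀m).1 ((map_ac h g).ae_le hX₀ae)
  have hX₁inv : ∀ (g : G) x, g • x ∈ X₁ ↔ x ∈ X₁ := by
    intro g x
    constructor
    · intro hx k
      have := hx (k * g⁻¹)
      rwa [mul_smul, inv_smul_smul] at this
    · intro hx k
      have := hx (k * g)
      rwa [mul_smul] at this
  have hsub : ∀ x ∈ X₁, x ∈ X₀ := fun x hx => by simpa using hx 1
  refine ⟨⟨fun g x => if x ∈ X₁ then w₀ g x else 1, fun g => max 1 (C g⁻¹), ?_, ?_, ?_, ?_, ?_⟩⟩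
  · exact fun g => Measurable.ite hX₁m (hm g) measurable_const
  · intro g k x
    by_cases hx : x ∈ X₁
    · simp only [hx, (hX₁inv k x).2 hx, if_true]
      exact (hsub x hx).1 g k
    · simp [hx, hX₁inv k x]
  · intro x
    by_cases hx : x ∈ X₁
    · simp only [hx, if_true]
      exact (hsub x hx).2.1
    · simp [hx]
  · intro g x
    by_cases hx : x ∈ X₁
    · simp only [hx, if_true]
      exact ((hsub x hx).2.2 g).trans (by exact_mod_cast le_max_right _ _)
    · simp only [hx, if_false]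
      exact_mod_cast le_max_left _ _
  · intro g φ hφ
    rw [← hinv g φ hφ]
    refine lintegral_congr_ae ?_
    filter_upwards [hX₁ae] with x hx
    simp [hx]

theorem Coc.one_le {m : Measure X} (c : Coc G m) (g : G) (x : X) : 1 ≤ c.C g⁻¹ * c.w g x := by
  have := c.mul g⁻¹ g x
  rw [inv_mul_cancel, c.one] at this
  rw [this, mul_comm]
  gcongr
  exact c.le _ _

theorem Coc.ne_zero {m : Measure X} (c : Coc G m) (g : G) (x : X) : c.w g x ≠ 0 := by
  intro h0
  have := c.one_le g x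
  simp [h0] at this

theorem Coc.ne_top {m : Measure X} (c : Coc G m) (g : G) (x : X) : c.w g x ≠ ∞ :=
  ne_top_of_le_ne_top ENNReal.coe_ne_top (c.le g x)

/-- Conservativity: the images of a set of positive measure have infinite total mass. -/
theorem tsum_image_eq_top {m : Measure X} (h : EC G m) (g : G) {Z : Set X}
    (hZ : MeasurableSet Z) (h0 : m Z ≠ 0) :
    ∑' j : ℕ, m ((fun x : X => (g ^ j)⁻¹ • x) ⁻¹' Z) = ∞ := by
  by_contra hne
  apply h0
  set A : Set X := {x | x ∈ Z ∧ ∀ j : ℕ, 0 < j → (g ^ j)⁻¹ • x ∉ Z} with hA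
  have hAm : MeasurableSet A := by
    rw [hA]
    simp only [ofPred_and, ofPred_forall]
    exact hZ.inter (MeasurableSet.iInter fun j => MeasurableSet.iInter fun _ =>
      (h.meas _ hZ).compl)
  have hA0 : m A = 0 := by
    refine h.cons g A hAm fun k hk => ?_
    convert measure_empty (μ := m)
    rw [eq_empty_iff_forall_notMem]
    rintro x ⟨⟨y, hy, rfl⟩, hx⟩
    rcases lt_or_gt_of_ne hk with hk | hk
    · obtain ⟨j, rfl⟩ := Int.exists_eq_neg_ofNat hk.le
      refine hy.2 j (by omega) ?_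
      simpa using hx.1
    · obtain ⟨j, rfl⟩ := Int.eq_ofNat_of_zero_le hk.le
      refine hx.2 j (by omega) ?_
      simpa using hy.1
  have hA1 : ∀ᵐ x ∂m, ∀ j : ℕ, (g ^ j)⁻¹ • x ∉ A := by
    refine ae_all_iff.2 fun j => ?_
    have := h.ns (g ^ j) A hAm hA0
    rw [image_smul_eq] at this
    exact measure_eq_zero_iff_ae_notMem.1 this
  refine measure_eq_zero_iff_ae_notMem.2 ?_
  filter_upwards [ae_finite_setOfPred_mem hne, hA1] with x hfin hx hxZ
  obtain ⟨j, hj, hmax⟩ := hfin.exists_maximal ⟨0, by simpa using hxZ⟩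
  refine hx j ⟨hj, fun i hi hmem => ?_⟩
  have h2 : (g ^ (j + i))⁻¹ • x ∈ Z := by
    rwa [pow_add, mul_inv_rev, mul_smul]
  have := hmax (y := j + i) h2 (by omega)
  omega

theorem Coc.setLIntegral {m : Measure X} (h : EC G m) (c : Coc G m) (g : G) {Z : Set X}
    (hZ : MeasurableSet Z) : ∫⁻ x in Z, c.w g x ∂m = m ((fun x : X => g⁻¹ • x) ⁻¹' Z) := by
  have := c.inv g (fun y => Z.indicator 1 (g⁻¹ • y))
    ((measurable_one.indicator hZ).comp (h.meas g⁻¹))
  simp only [inv_smul_smul] at this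
  rw [← lintegral_indicator hZ, ← lintegral_indicator_one (h.meas g⁻¹ hZ)]
  convert this using 3
  · rename_i x; by_cases hx : x ∈ Z <;> simp [hx]
  · rfl

theorem Coc.tsum_eq_top {m : Measure X} [IsFiniteMeasure m] (h : EC G m) (c : Coc G m) (g : G) :
    ∀ᵐ x ∂m, ∑' j : ℕ, c.w (g ^ j) x = ∞ := by
  have hm : Measurable fun x => ∑' j : ℕ, c.w (g ^ j) x :=
    Measurable.tsum fun j => c.meas _
  have key : ∀ M : ℕ, ∀ᵐ x ∂m, ¬ (∑' j : ℕ, c.w (g ^ j) x ≤ M) := by
    intro M
    have hZ : MeasurableSet {x | ∑' j : ℕ, c.w (g ^ j) x ≤ M} :=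
      measurableSet_le hm measurable_const
    refine measure_eq_zero_iff_ae_notMem.1 ?_
    by_contra h0
    have h1 := tsum_image_eq_top h g hZ h0
    simp only [← c.setLIntegral h _ hZ] at h1
    rw [← lintegral_tsum fun j => (c.meas _).aemeasurable] at h1
    have h2 := setLIntegral_mono (μ := m) (s := {x | ∑' j : ℕ, c.w (g ^ j) x ≤ M})
      (f := fun x => ∑' j : ℕ, c.w (g ^ j) x) (g := fun _ => (M : ℝ≥0∞)) measurable_const
      fun x hx => hx
    rw [h1, setLIntegral_const, top_le_iff] at h2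
    exact ENNReal.mul_ne_top (ENNReal.natCast_ne_top M) (measure_ne_top _ _) h2
  filter_upwards [ae_all_iff.2 key] with x hx
  by_contra hne
  obtain ⟨M, hM⟩ := ENNReal.exists_nat_gt hne
  exact hx M hM.le

end Pool.Agent.MP_2b113a_an.H46
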