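import Mathlib
import Pool.Agent.MP_2b113a_an.H83.Defs

/-!
The two-torus, its section in the unit square, and the hyperbolic maps.
-/

namespace Pool.Agent.MP_2b113a_an.H46

open MeasureTheory Set Filter
open scoped ENNReal NNReal
open Pool.Agent.MP_2b113a_an.H83

/-- The two-torus. -/
abbrev T2 : Type := UnitAddCircle × UnitAddCircle

/-- The section of the circle in `[0, 1)`. -/
noncomputable def sg1 (t : UnitAddCircle) : ℝ := (AddCircle.equivIco 1 0 t : ℝ)

/-- The section of the torus in the unit square. -/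
noncomputable def sg (θ : T2) : ℝ × ℝ := (sg1 θ.1, sg1 θ.2)

/-- The projection of the plane on the torus. -/
def pr (q : ℝ × ℝ) : T2 := ((q.1 : UnitAddCircle), (q.2 : UnitAddCircle))

/-- The integer part. -/
noncomputable def fl (q : ℝ × ℝ) : ℤ × ℤ := (⌊q.1⌋, ⌊q.2⌋)

/-- The inclusion of the lattice. -/
def io (v : ℤ × ℤ) : ℝ × ℝ := ((v.1 : ℝ), (v.2 : ℝ))

theorem sg1_coe (x : ℝ) : sg1 (x : UnitAddCircle) = x - ⌊x⌋ := by
  have := AddCircle.coe_equivIco_mk_apply (1 : ℝ) x
  simp only [div_one, mul_one] at this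
  exact this

theorem coe_sg1 (t : UnitAddCircle) : (sg1 t : UnitAddCircle) = t := AddCircle.coe_equivIco

theorem sg1_mem (t : UnitAddCircle) : sg1 t ∈ Ico (0 : ℝ) 1 := by
  simpa [sg1] using (AddCircle.equivIco 1 0 t).2

theorem meas_sg1 : Measurable sg1 :=
  measurable_subtype_coe.comp (AddCircle.measurableEquivIco 1 0).measurable

theorem meas_sg : Measurable sg :=
  (meas_sg1.comp measurable_fst).prodMk (meas_sg1.comp measurable_snd)

theorem meas_pr : Measurable pr :=
  (AddCircle.measurable_mk'.comp measurable_fst).prodMk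
    (AddCircle.measurable_mk'.comp measurable_snd)

theorem meas_fl : Measurable fl :=
  (Int.measurable_floor.comp measurable_fst).prodMk (Int.measurable_floor.comp measurable_snd)

theorem pr_sg (θ : T2) : pr (sg θ) = θ := Prod.ext (coe_sg1 _) (coe_sg1 _)

theorem sg_pr (q : ℝ × ℝ) : sg (pr q) = q - io (fl q) := Prod.ext (sg1_coe _) (sg1_coe _)

theorem pr_add (p q : ℝ × ℝ) : pr (p + q) = pr p + pr q := rfl

theorem pr_zero : pr 0 = 0 := rfl

theorem pr_neg (p : ℝ × ℝ) : pr (-p) = -pr p := rfl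

theorem pr_io (v : ℤ × ℤ) : pr (io v) = 0 := by
  have : ∀ n : ℤ, ((n : ℝ) : UnitAddCircle) = 0 := fun n =>
    (AddCircle.coe_eq_zero_iff (1 : ℝ)).2 ⟨n, by simp⟩
  exact Prod.ext (this _) (this _)

theorem fl_sub_io (q : ℝ × ℝ) (v : ℤ × ℤ) : fl (q - io v) = fl q - v :=
  Prod.ext (Int.floor_sub_intCast _ _) (Int.floor_sub_intCast _ _)

theorem fl_sg_add_io (θ : T2) (v : ℤ × ℤ) : fl (sg θ + io v) = v := by
  have : ∀ (t : UnitAddCircle) (n : ℤ), ⌊sg1 t + n⌋ = n := fun t n => by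
    rw [Int.floor_add_intCast, Int.floor_eq_zero_iff.2 (sg1_mem t), zero_add]
  exact Prod.ext (this _ _) (this _ _)

theorem fl_zero : fl 0 = 0 := by simp [fl]

theorem io_zero : io 0 = 0 := by simp [io]

theorem fl_sg (θ : T2) : fl (sg θ) = 0 := by
  simpa [io_zero] using fl_sg_add_io θ 0

theorem sg_add_pr (θ : T2) (q : ℝ × ℝ) : sg (θ + pr q) = sg θ + q - io (fl (sg θ + q)) := by
  rw [← sg_pr, pr_add, pr_sg]

/-- The hyperbolic matrix on the square of any abelian group. -/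
def hypA (e : ℤ) (A : Type) [AddCommGroup A] : AddMonoid.End (A × A) where
  toFun v := ((2 : ℤ) • v.1 + e • v.2, e • v.1 + v.2)
  map_zero' := by simp
  map_add' v w := by
    refine Prod.ext ?_ ?_
    · simp only [Prod.fst_add, Prod.snd_add, smul_add]; abel
    · simp only [Prod.fst_add, Prod.snd_add, smul_add]; abel

theorem hypA_apply (e : ℤ) (A : Type) [AddCommGroup A] (v : A × A) :
    hypA e A v = ((2 : ℤ) • v.1 + e • v.2, e • v.1 + v.2) := rfl

theorem hypA_pow_apply (e : ℤ) (A : Type) [AddCommGroup A] (n : ℕ) (v : A × A) :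
    (hypA e A ^ n) v = (hypA e A)^[n] v := by
  rw [AddMonoid.End.coe_pow]

theorem hyp_eq (e : ℤ) : hyp e = hypA e ℤ := by
  funext v
  simp [hyp, hypA_apply]

theorem hypA_surj {e : ℤ} (he : e * e = 1) (A : Type) [AddCommGroup A] :
    Function.Surjective (hypA e A) := by
  intro v
  refine ⟨(v.1 - e • v.2, (2 : ℤ) • v.2 - e • v.1), ?_⟩
  rw [hypA_apply]
  refine Prod.ext ?_ ?_
  · simp only [smul_sub, smul_smul, he, mul_comm e 2]
    module
  · simp only [smul_sub, smul_smul, he]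
    module

theorem hypA_pow_surj {e : ℤ} (he : e * e = 1) (A : Type) [AddCommGroup A] (n : ℕ) :
    Function.Surjective (hypA e A ^ n) := by
  rw [AddMonoid.End.coe_pow]
  exact (hypA_surj he A).iterate n

theorem pr_hypA (e : ℤ) (n : ℕ) (q : ℝ × ℝ) :
    pr ((hypA e ℝ ^ n) q) = (hypA e UnitAddCircle ^ n) (pr q) := by
  rw [hypA_pow_apply, hypA_pow_apply]
  exact Function.Semiconj.iterate_right (f := pr) (fun _ => rfl) n q

theorem io_hypA (e : ℤ) (n : ℕ) (v : ℤ × ℤ) :
    io ((hypA e ℤ ^ n) v) = (hypA e ℝ ^ n) (io v) := by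
  rw [hypA_pow_apply, hypA_pow_apply]
  refine Function.Semiconj.iterate_right (f := io) (fun v => ?_) n v
  simp [io, hypA_apply]

theorem cont_hypA (e : ℤ) (A : Type) [AddCommGroup A] [TopologicalSpace A]
    [IsTopologicalAddGroup A] (n : ℕ) : Continuous (hypA e A ^ n) := by
  rw [AddMonoid.End.coe_pow]
  refine Continuous.iterate ?_ n
  change Continuous fun v : A × A => ((2 : ℤ) • v.1 + e • v.2, e • v.1 + v.2)
  fun_prop

instance : IsProbabilityMeasure (volume : Measure UnitAddCircle) := ⟨UnitAddCircle.measure_univ⟩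

instance : IsProbabilityMeasure (volume : Measure T2) :=
  inferInstanceAs (IsProbabilityMeasure ((volume : Measure UnitAddCircle).prod volume))

instance : Measure.IsAddHaarMeasure (volume : Measure T2) :=
  inferInstanceAs (Measure.IsAddHaarMeasure ((volume : Measure UnitAddCircle).prod volume))

theorem mp_hypA {e : ℤ} (he : e * e = 1) (n : ℕ) :
    MeasurePreserving (hypA e UnitAddCircle ^ n) (volume : Measure T2) volume :=
  AddMonoidHom.measurePreserving (f := (hypA e UnitAddCircle ^ n : AddMonoid.End T2))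
    (cont_hypA e _ n) (hypA_pow_surj he _ n) rfl

theorem finite_fl (D : ℝ × ℝ → ℝ × ℝ) (hD : Continuous D) :
    (range fun θ : T2 => fl (D (sg θ))).Finite := by
  obtain ⟨R, hR⟩ := ((isCompact_Icc (a := (0 : ℝ × ℝ)) (b := 1)).image hD).isBounded.exists_norm_le
  refine (finite_Icc ((⌊-R⌋, ⌊-R⌋) : ℤ × ℤ) (⌊R⌋, ⌊R⌋)).subset ?_
  rintro _ ⟨θ, rfl⟩
  have h := hR (D (sg θ)) ⟨sg θ, ⟨⟨(sg1_mem _).1, (sg1_mem _).1⟩,
    ⟨(sg1_mem _).2.le, (sg1_mem _).2.le⟩⟩, rfl⟩
  have h1 := abs_le.1 ((norm_fst_le (D (sg θ))).trans h)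
  have h2 := abs_le.1 ((norm_snd_le (D (sg θ))).trans h)
  exact ⟨⟨Int.floor_mono h1.1, Int.floor_mono h2.1⟩, ⟨Int.floor_mono h1.2, Int.floor_mono h2.2⟩⟩

theorem lintegral_fl (f : ℤ × ℤ → ℝ≥0∞) (y : ℝ × ℝ) : ∫⁻ q, f (fl (y + q)) = ∑' v, f v := by
  rw [lintegral_add_left_eq_self (fun q => f (fl q)) y,
    ← lintegral_map (measurable_of_countable f) meas_fl, lintegral_countable']
  refine tsum_congr fun v => ?_
  rw [Measure.map_apply meas_fl (measurableSet_singleton v)]
  have : fl ⁻¹' {v} = Ico (v.1 : ℝ) (v.1 + 1) ×ˢ Ico (v.2 : ℝ) (v.2 + 1) := by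
    ext q
    simp [fl, Prod.ext_iff, Int.floor_eq_iff]
  rw [this, Measure.volume_eq_prod, Measure.prod_prod]
  simp

/-- The golden ratio. -/
noncomputable def gr : ℝ := Real.goldenRatio

/-- The norm of the eigenvector. -/
noncomputable def nr : ℝ := √(gr ^ 2 + 1)

theorem one_lt_gr : 1 < gr := Real.one_lt_goldenRatio

theorem gr_sq : gr ^ 2 = gr + 1 := Real.goldenRatio_sq

theorem nr_pos : 0 < nr := Real.sqrt_pos.2 (by positivity)

theorem nr_sq : nr ^ 2 = gr ^ 2 + 1 := Real.sq_sqrt (by positivity)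

theorem hypA_rot {e : ℤ} (he : e * e = 1) (n : ℕ) (q : ℝ × ℝ) :
    (hypA e ℝ ^ n) (rot (gr / nr) (e / nr) q) =
      rot (gr / nr) (e / nr) ((gr ^ 2) ^ n * q.1, ((gr ^ 2) ^ n)⁻¹ * q.2) := by
  have hg : gr ^ 2 = gr + 1 := Real.goldenRatio_sq
  have he' : (e : ℝ) * e = 1 := by exact_mod_cast he
  have hi : (gr ^ 2)⁻¹ = 2 - gr := by
    refine inv_eq_of_mul_eq_one_right ?_
    linear_combination (1 - gr) * hg
  induction n generalizing q with
  | zero => simp
  | succ n ih =>
    have h1 : hypA e ℝ (rot (gr / nr) (e / nr) q) =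
        rot (gr / nr) (e / nr) (gr ^ 2 * q.1, (gr ^ 2)⁻¹ * q.2) := by
      rw [hi, hypA_apply]
      simp only [rot, zsmul_eq_mul, Int.cast_ofNat]
      refine Prod.ext ?_ ?_
      · simp only
        linear_combination (q.1 / nr) * he' - (q.1 * (gr + 1) / nr) * hg
      · simp only
        linear_combination (-q.2 / nr) * he' - (e * q.1 / nr) * hg + (q.2 / nr) * hg
    rw [pow_succ, AddMonoid.End.coe_mul, Function.comp_apply, h1, ih]
    simp only [pow_succ, mul_inv, mul_assoc]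

end Pool.Agent.MP_2b113a_an.H46
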