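import Mathlib
import Pool.Agent.MP_2b113a_an.H83.Defs
import Pool.Agent.MP_2b113a_an.H46.Coc
import Pool.Agent.MP_2b113a_an.H46.Torus

/-!
Suspension of the action of a plane lattice to a flow of the plane.
-/

namespace Pool.Agent.MP_2b113a_an.H46

open MeasureTheory Set Filter
open scoped ENNReal NNReal
open Pool.Agent.MP_2b113a_an.H83

variable {G : Type} [Group G] {X : Type} [MeasurableSpace X] [MulAction G X]

theorem meas_sel {A Y : Type} [MeasurableSpace A] [MeasurableSpace Y] (f : ℤ × ℤ → X → Y)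
    (hf : ∀ v, Measurable (f v)) {n : A → ℤ × ℤ} (hn : Measurable n) {p : A → X}
    (hp : Measurable p) : Measurable fun a => f (n a) (p a) :=
  (measurable_from_prod_countable_left (f := fun z : X × (ℤ × ℤ) => f z.2 z.1) hf).comp
    (hp.prodMk hn)

theorem skew_inv {m : Measure X} [IsProbabilityMeasure m] (h : EC G m) (c : Coc G m)
    (g : ℤ × ℤ → G) {n : T2 → ℤ × ℤ} (hn : Measurable n) {R : T2 → T2}
    (hR : MeasurePreserving R volume volume) (φ : X × T2 → ℝ≥0∞) (hφ : Measurable φ) :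
    ∫⁻ ω, φ (g (n ω.2) • ω.1, R ω.2) * c.w (g (n ω.2)) ω.1 ∂(m.prod volume) =
      ∫⁻ ω, φ ω ∂(m.prod volume) := by
  have h1 : Measurable fun ω : X × T2 => g (n ω.2) • ω.1 :=
    meas_sel (fun v x => g v • x) (fun v => h.meas _) (hn.comp measurable_snd) measurable_fst
  have h2 : Measurable fun ω : X × T2 => c.w (g (n ω.2)) ω.1 :=
    meas_sel (fun v x => c.w (g v) x) (fun v => c.meas _) (hn.comp measurable_snd) measurable_fst
  have h3 : Measurable fun ω : X × T2 => φ (g (n ω.2) • ω.1, R ω.2) * c.w (g (n ω.2)) ω.1 :=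
    (hφ.comp (h1.prodMk (hR.measurable.comp measurable_snd))).mul h2
  rw [lintegral_prod_symm' _ h3,
    lintegral_prod_symm' _ hφ, ← hR.lintegral_comp hφ.lintegral_prod_left']
  refine lintegral_congr fun θ => ?_
  exact c.inv (g (n θ)) (fun x => φ (x, R θ)) (hφ.comp measurable_prodMk_right)

theorem alpha_zero {α : ℤ × ℤ → G} (hα : ∀ v w, α (v + w) = α v * α w) : α 0 = 1 := by
  have := hα 0 0
  simpa using this

theorem fl_add (θ : T2) (p q : ℝ × ℝ) :
    fl (sg θ + (p + q)) = fl (sg (θ + pr q) + p) + fl (sg θ + q) := by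
  rw [sg_add_pr, show sg θ + q - io (fl (sg θ + q)) + p = sg θ + (p + q) - io (fl (sg θ + q)) by
    abel, fl_sub_io, sub_add_cancel]

/-- The suspension flow. -/
noncomputable def flow {m : Measure X} [IsProbabilityMeasure m] (h : EC G m) (c : Coc G m)
    (α : ℤ × ℤ → G) (hα : ∀ v w, α (v + w) = α v * α w) :
    NSFlow (X × T2) (m.prod volume) where
  τ q ω := (α (fl (sg ω.2 + q)) • ω.1, ω.2 + pr q)
  W q ω := c.w (α (fl (sg ω.2 + q))) ω.1
  meas_τ := (meas_sel (fun v x => α v • x) (fun _ => h.meas _)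
      (meas_fl.comp ((meas_sg.comp measurable_snd.snd).add measurable_fst))
      measurable_snd.fst).prodMk (measurable_snd.snd.add (meas_pr.comp measurable_fst))
  meas_W := meas_sel (fun v x => c.w (α v) x) (fun _ => c.meas _)
      (meas_fl.comp ((meas_sg.comp measurable_snd.snd).add measurable_fst)) measurable_snd.fst
  τ_zero ω := by simp [fl_sg, alpha_zero hα, pr_zero]
  τ_add p q ω := by
    refine Prod.ext ?_ ?_
    · simp only [fl_add, hα, mul_smul]
    · simp only [pr_add]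
      abel
  W_add p q ω := by simp only [fl_add, hα, c.mul]
  W_ne_zero q ω := c.ne_zero _ _
  W_ne_top q ω := c.ne_top _ _
  inv q φ hφ := skew_inv h c α (meas_fl.comp (meas_sg.add_const q))
    (measurePreserving_add_right volume (pr q)) φ hφ

theorem fl_hyp (e : ℤ) (n : ℕ) (θ : T2) (q : ℝ × ℝ) :
    fl ((hypA e ℝ ^ n) (sg (θ + pr q))) + (hypA e ℤ ^ n) (fl (sg θ + q)) =
      fl (sg ((hypA e UnitAddCircle ^ n) θ) + (hypA e ℝ ^ n) q) + fl ((hypA e ℝ ^ n) (sg θ)) := by
  have h1 : sg ((hypA e UnitAddCircle ^ n) θ) =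
      (hypA e ℝ ^ n) (sg θ) - io (fl ((hypA e ℝ ^ n) (sg θ))) := by
    rw [← sg_pr, pr_hypA, pr_sg]
  rw [h1, sg_add_pr, map_sub, ← io_hypA, fl_sub_io, sub_add_cancel, map_add,
    sub_add_eq_add_sub, fl_sub_io, sub_add_cancel]

theorem grp_hyp {α : ℤ × ℤ → G} (hα : ∀ v w, α (v + w) = α v * α w) {e : ℤ} {n : ℕ} {t : G}
    (ht : ∀ v, t * α v = α ((hypA e ℤ ^ n) v) * t) (θ : T2) (q : ℝ × ℝ) :
    α (fl ((hypA e ℝ ^ n) (sg (θ + pr q)))) * t * α (fl (sg θ + q)) =
      α (fl (sg ((hypA e UnitAddCircle ^ n) θ) + (hypA e ℝ ^ n) q)) *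
        (α (fl ((hypA e ℝ ^ n) (sg θ))) * t) := by
  rw [mul_assoc, ht, ← mul_assoc, ← mul_assoc, ← hα, ← hα, fl_hyp]

theorem exists_bound {m : Measure X} (c : Coc G m) (α : ℤ × ℤ → G) (e : ℤ) (n : ℕ) (t : G) :
    ∃ C : ℝ≥0, ∀ θ : T2, c.C (α (fl ((hypA e ℝ ^ n) (sg θ))) * t) ≤ C ∧
      c.C (α (fl ((hypA e ℝ ^ n) (sg θ))) * t)⁻¹ ≤ C := by
  obtain ⟨C, hC⟩ := ((finite_fl _ (cont_hypA e ℝ n)).image
    fun v => max (c.C (α v * t)) (c.C (α v * t)⁻¹)).bddAbove
  exact ⟨C, fun θ => max_le_iff.1 (hC ⟨_, ⟨θ, rfl⟩, rfl⟩)⟩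

/-- The symmetry of the suspension flow given by a normalising element. -/
noncomputable def sym {m : Measure X} [IsProbabilityMeasure m] (h : EC G m) (c : Coc G m)
    (α : ℤ × ℤ → G) (hα : ∀ v w, α (v + w) = α v * α w) {e : ℤ} (he : e * e = 1) (n : ℕ) (t : G)
    (ht : ∀ v, t * α v = α ((hypA e ℤ ^ n) v) * t) :
    H83.Sym (flow h c α hα) (fun q => (hypA e ℝ ^ n) q) where
  S ω := ((α (fl ((hypA e ℝ ^ n) (sg ω.2))) * t) • ω.1, (hypA e UnitAddCircle ^ n) ω.2)
  ρ ω := c.w (α (fl ((hypA e ℝ ^ n) (sg ω.2))) * t) ω.1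
  C := (exists_bound c α e n t).choose
  meas_S := (meas_sel (fun v x => (α v * t) • x) (fun _ => h.meas _)
      (meas_fl.comp ((cont_hypA e ℝ n).measurable.comp (meas_sg.comp measurable_snd)))
      measurable_fst).prodMk ((mp_hypA he n).measurable.comp measurable_snd)
  meas_ρ := meas_sel (fun v x => c.w (α v * t) x) (fun _ => c.meas _)
      (meas_fl.comp ((cont_hypA e ℝ n).measurable.comp (meas_sg.comp measurable_snd)))
      measurable_fst
  ρ_le ω := (c.le _ _).trans (by exact_mod_cast ((exists_bound c α e n t).choose_spec ω.2).1)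
  le_ρ ω := (c.one_le _ ω.1).trans (mul_le_mul_left
    (by exact_mod_cast ((exists_bound c α e n t).choose_spec ω.2).2) _)
  comm q ω := by
    refine Prod.ext ?_ ?_
    · simp only [flow, ← mul_smul, grp_hyp hα ht]
    · simp only [flow, map_add, pr_hypA]
  cocy q ω := by
    simp only [flow]
    rw [mul_comm, ← c.mul, ← c.mul, grp_hyp hα ht]
  inv φ hφ := skew_inv h c (fun v => α v * t)
    (meas_fl.comp ((cont_hypA e ℝ n).measurable.comp meas_sg)) (mp_hypA he n) φ hφ

theorem pow_norm {α : ℤ × ℤ → G} {e : ℤ} {k : ℕ} {t : G}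
    (ht : ∀ v, t * α v = α ((hyp e)^[k] v) * t) (j : ℕ) (v : ℤ × ℤ) :
    t ^ j * α v = α ((hypA e ℤ ^ (k * j)) v) * t ^ j := by
  induction j generalizing v with
  | zero => simp
  | succ j ih =>
    rw [pow_succ, mul_assoc, ht, ← mul_assoc, ih, mul_assoc, Nat.mul_succ, pow_add,
      AddMonoid.End.coe_mul, Function.comp_apply, hypA_pow_apply e ℤ k, hyp_eq]

theorem hypSeq {m : Measure X} [IsProbabilityMeasure m] (h : EC G m) (c : Coc G m)
    (α : ℤ × ℤ → G) (hα : ∀ v w, α (v + w) = α v * α w) {e : ℤ} (he : e * e = 1) (k : ℕ) (t : G)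
    (ht : ∀ v, t * α v = α ((hyp e)^[k] v) * t) :
    HypSeq (flow h c α hα) ((gr ^ 2) ^ k) (gr / nr) (e / nr) := by
  refine ⟨fun j q => (hypA e ℝ ^ (k * j)) q,
    fun j => sym h c α hα he (k * j) (t ^ j) (pow_norm ht j), fun j q => ?_, ?_⟩
  · simp only
    rw [hypA_rot he, ← pow_mul (gr ^ 2) k j]
  intro Z hZ hinv h0
  set Y : Set X := {x | (x, (0 : T2)) ∈ Z} with hY
  have hYm : MeasurableSet Y := measurable_prodMk_right hZ
  have hZY : ∀ ω : X × T2, ω ∈ Z ↔ ω.1 ∈ Y := by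
    intro ω
    rw [← hinv (-sg ω.2) ω]
    simp [flow, fl_zero, alpha_zero hα, pr_neg, pr_sg, hY]
  have hYα : ∀ v x, α v • x ∈ Y ↔ x ∈ Y := by
    intro v x
    have := hinv (io v) (x, 0)
    simpa [flow, fl_sg_add_io, pr_io, hY] using this
  have hY0 : m Y ≠ 0 := by
    intro hY0
    apply h0
    have : Z = Y ×ˢ univ := by
      ext ω
      simp [hZY]
    rw [this, Measure.prod_prod, hY0, zero_mul]
  rw [← tsum_image_eq_top h t hYm hY0]
  refine tsum_congr fun j => ?_
  set Y' : Set X := (fun x : X => (t ^ j)⁻¹ • x) ⁻¹' Y with hY'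
  have hY'm : MeasurableSet Y' := h.meas _ hYm
  have key := (sym h c α hα he (k * j) (t ^ j) (pow_norm ht j)).inv
    ((Y' ×ˢ (univ : Set T2)).indicator 1) (measurable_one.indicator (hY'm.prod .univ))
  rw [lintegral_indicator_one (hY'm.prod .univ), Measure.prod_prod, measure_univ, mul_one] at key
  rw [← key, ← lintegral_indicator hZ]
  refine lintegral_congr fun ω => ?_
  have hmem : (sym h c α hα he (k * j) (t ^ j) (pow_norm ht j)).S ω ∈ Y' ×ˢ (univ : Set T2) ↔
      ω ∈ Z := by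
    obtain ⟨v, hv⟩ := hypA_pow_surj he ℤ (k * j) (fl ((hypA e ℝ ^ (k * j)) (sg ω.2)))
    simp only [sym, mem_prod, mem_univ, and_true, hY', mem_preimage]
    rw [← hv, ← pow_norm ht j, mul_smul, inv_smul_smul, hYα, hZY]
  by_cases hω : ω ∈ Z
  · rw [indicator_of_mem hω, indicator_of_mem (hmem.2 hω), Pi.one_apply, one_mul]
  · rw [indicator_of_notMem hω, indicator_of_notMem (fun h' => hω (hmem.1 h')), zero_mul]

theorem alpha_pow {α : ℤ × ℤ → G} (hα : ∀ v w, α (v + w) = α v * α w) (j : ℕ) :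
    α ((j : ℤ), 0) = α (1, 0) ^ j := by
  induction j with
  | zero => rw [pow_zero]; exact alpha_zero hα
  | succ j ih =>
    rw [pow_succ, ← ih, ← hα]
    simp

theorem lintegral_W {m : Measure X} [IsProbabilityMeasure m] (h : EC G m) (c : Coc G m)
    (α : ℤ × ℤ → G) (hα : ∀ v w, α (v + w) = α v * α w) :
    ∀ᵐ ω ∂(m.prod (volume : Measure T2)), ∫⁻ q, (flow h c α hα).W q ω = ∞ := by
  have h1 := (measurePreserving_fst (μ := m) (ν := (volume : Measure T2))).quasiMeasurePreserving.ae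
    (c.tsum_eq_top h (α (1, 0)))
  filter_upwards [h1] with ω hω
  simp only [flow]
  rw [lintegral_fl (fun v => c.w (α v) ω.1), eq_top_iff, ← hω]
  simp only [← alpha_pow hα]
  exact ENNReal.tsum_comp_le_tsum_of_injective (f := fun j : ℕ => (((j : ℤ), 0) : ℤ × ℤ))
    (fun a b hab => by simpa using hab) fun v => c.w (α v) ω.1

theorem plane_of_core (H : CoreStmt) : PlaneStmt := by
  intro G _ _ X _ _ μ _ hμ α t₁ t₂ k hk hα ht₁ ht₂
  obtain ⟨m, hm, h1, h2, hC⟩ := exists_dominated hμ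
  have h : EC G m := EC.of_equiv hμ h1 h2
  obtain ⟨c⟩ := exists_coc h hC
  have hg : gr ^ 2 = gr + 1 := gr_sq
  have hg1 : 1 < gr := one_lt_gr
  have hn := nr_pos
  have hn2 := nr_sq
  obtain ⟨ν, hν, h3, h4, h5⟩ := H (X × T2) (m.prod volume) (flow h c α hα) ((gr ^ 2) ^ k)
    (gr / nr) ((1 : ℤ) / nr) (gr / nr) ((-1 : ℤ) / nr)
    (le_trans (by linarith) (le_self_pow₀ (by nlinarith) (by omega)))
    (by push_cast; field_simp; linarith) (by push_cast; field_simp; linarith)
    (by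
      have : gr / nr * (gr / nr) + ((1 : ℤ) : ℝ) / nr * (((-1 : ℤ) : ℝ) / nr) = gr / nr ^ 2 := by
        push_cast; field_simp; linarith
      rw [this]
      positivity)
    (by
      have : gr / nr * (((-1 : ℤ) : ℝ) / nr) - ((1 : ℤ) : ℝ) / nr * (gr / nr) =
          -(2 * gr / nr ^ 2) := by
        push_cast; field_simp; ring
      rw [this, neg_ne_zero]
      positivity)
    (hypSeq h c α hα (by norm_num) k t₁ ht₁) (hypSeq h c α hα (by norm_num) k t₂ ht₂)
    (lintegral_W h c α hα)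
  have hfst : (m.prod (volume : Measure T2)).map Prod.fst = m := by simp
  refine ⟨ν.map Prod.fst, inferInstance, ?_, ?_, fun v => ?_⟩
  · exact (hfst ▸ h3.map measurable_fst).trans h1
  · exact h2.trans (hfst ▸ h4.map measurable_fst)
  · have hτ : Measurable ((flow h c α hα).τ (io v)) :=
      (flow h c α hα).meas_τ.comp measurable_prodMk_left
    conv_rhs => rw [← h5 (io v)]
    rw [Measure.map_map (h.meas _) measurable_fst, Measure.map_map measurable_fst hτ]
    congr 1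
    funext ω
    simp [flow, fl_sg_add_io]

end Pool.Agent.MP_2b113a_an.H46
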