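import Mathlib
import Pool.Agent.MP_2b113a_an.H83.Iface

/-!
Planar lemmas for the window step: almost independence from a density bound, and the two cases
(wide or narrow Gaussian) of the rigidity theorem.
-/

namespace Pool.Agent.MP_2b113a_an.H46

open MeasureTheory ProbabilityTheory Filter Topology
open scoped ENNReal NNReal Real
open Pool.Agent.MP_2b113a_an.H83

lemma integral_le_add {α : Type*} [MeasurableSpace α] {ν ρ : Measure α} [IsProbabilityMeasure ν]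
    [IsProbabilityMeasure ρ] {δ : ℝ} (hδ : 0 ≤ δ)
    (h : ∀ f : α → ℝ≥0∞, Measurable f → (∀ u, f u ≤ 1) →
      ∫⁻ u, f u ∂ν ≤ ∫⁻ u, f u ∂ρ + ENNReal.ofReal δ)
    {g : α → ℝ} (hg : Measurable g) (h01 : ∀ x, 0 ≤ g x ∧ g x ≤ 1) :
    ∫ u, g u ∂ν ≤ ∫ u, g u ∂ρ + δ := by
  have h1 : ∀ u, ENNReal.ofReal (g u) ≤ 1 := fun u => ENNReal.ofReal_le_one.2 (h01 u).2
  have h2 := h (fun u => ENNReal.ofReal (g u)) (by fun_prop) h1
  have h3 : ∫⁻ u, ENNReal.ofReal (g u) ∂ρ ≠ ∞ :=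
    ne_top_of_le_ne_top (by simp) (lintegral_mono h1)
  rw [integral_eq_lintegral_of_nonneg_ae (ae_of_all _ fun u => (h01 u).1)
      hg.aestronglyMeasurable,
    integral_eq_lintegral_of_nonneg_ae (ae_of_all _ fun u => (h01 u).1) hg.aestronglyMeasurable]
  have h4 := ENNReal.toReal_mono (ENNReal.add_ne_top.2 ⟨h3, ENNReal.ofReal_ne_top⟩) h2
  rwa [ENNReal.toReal_add h3 ENNReal.ofReal_ne_top, ENNReal.toReal_ofReal hδ] at h4

lemma abs_integral_sub_le {α : Type*} [MeasurableSpace α] {ν ρ : Measure α}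
    [IsProbabilityMeasure ν] [IsProbabilityMeasure ρ] {δ : ℝ} (hδ : 0 ≤ δ)
    (h : ∀ f : α → ℝ≥0∞, Measurable f → (∀ u, f u ≤ 1) →
      ∫⁻ u, f u ∂ν ≤ ∫⁻ u, f u ∂ρ + ENNReal.ofReal δ)
    {g : α → ℝ} (hg : Measurable g) (h01 : ∀ x, 0 ≤ g x ∧ g x ≤ 1) :
    |∫ u, g u ∂ν - ∫ u, g u ∂ρ| ≤ δ := by
  have h1 := integral_le_add hδ h hg h01
  have h2 := integral_le_add hδ h (g := fun u => 1 - g u) (by fun_prop)
    fun x => ⟨by linarith [(h01 x).2], by linarith [(h01 x).1]⟩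
  have hi : ∀ (μ : Measure α) [IsProbabilityMeasure μ], ∫ u, 1 - g u ∂μ = 1 - ∫ u, g u ∂μ := by
    intro μ _
    rw [integral_sub (integrable_const _) (Integrable.of_bound hg.aestronglyMeasurable 1
      (ae_of_all _ fun u => by rw [Real.norm_eq_abs, abs_of_nonneg (h01 u).1]; exact (h01 u).2))]
    simp
  rw [hi, hi] at h2
  rw [abs_le]
  constructor <;> linarith

lemma dep_of {β₁ β₂ : Measure ℝ} [IsProbabilityMeasure β₁] [IsProbabilityMeasure β₂]
    {x : ℝ × ℝ → ℝ≥0∞} (hx : Measurable x) {P : ℝ≥0∞} (hP : ∫⁻ u, x u ∂(β₁.prod β₂) = P)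
    (h0 : P ≠ 0) (h1 : P ≠ ∞) {δ : ℝ} (hδ : 0 ≤ δ)
    (h : ∫⁻ u, x u - (∫⁻ b, x (u.1, b) ∂β₂) * (∫⁻ a, x (a, u.2) ∂β₁) / P ∂(β₁.prod β₂) ≤
      ENNReal.ofReal δ * P) :
    Dep ((β₁.prod β₂).withDensity fun u => x u / P) δ := by
  set p : ℝ → ℝ≥0∞ := fun a => ∫⁻ b, x (a, b) ∂β₂ with hp
  set q : ℝ → ℝ≥0∞ := fun b => ∫⁻ a, x (a, b) ∂β₁ with hq
  have mp : Measurable p := by rw [hp]; fun_prop
  have mq : Measurable q := by rw [hq]; fun_prop
  set μ := (β₁.prod β₂).withDensity fun u => x u / P with hμ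
  have hl : ∀ f : ℝ × ℝ → ℝ≥0∞, Measurable f →
      ∫⁻ u, f u ∂μ = ∫⁻ u, x u / P * f u ∂(β₁.prod β₂) := fun f hf => by
    rw [hμ, lintegral_withDensity_eq_lintegral_mul _ (by fun_prop) hf]; rfl
  have : IsProbabilityMeasure μ := ⟨by
    rw [← lintegral_one, hl _ measurable_const]
    simp only [mul_one, div_eq_mul_inv]
    rw [lintegral_mul_const _ hx, hP, ENNReal.mul_inv_cancel h0 h1]⟩
  have e1 : μ.map Prod.fst = β₁.withDensity fun a => p a / P := by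
    refine Measure.ext_of_lintegral _ fun f hf => ?_
    rw [lintegral_map hf measurable_fst, hl _ (by fun_prop),
      lintegral_withDensity_eq_lintegral_mul _ (by fun_prop) hf, lintegral_prod _ (by fun_prop)]
    refine lintegral_congr fun a => ?_
    simp only [div_eq_mul_inv, mul_assoc, Pi.mul_apply]
    rw [lintegral_mul_const _ (by fun_prop)]
  have e2 : μ.map Prod.snd = β₂.withDensity fun b => q b / P := by
    refine Measure.ext_of_lintegral _ fun f hf => ?_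
    rw [lintegral_map hf measurable_snd, hl _ (by fun_prop),
      lintegral_withDensity_eq_lintegral_mul _ (by fun_prop) hf,
      lintegral_prod_symm _ (by fun_prop)]
    refine lintegral_congr fun b => ?_
    simp only [div_eq_mul_inv, mul_assoc, Pi.mul_apply]
    rw [lintegral_mul_const _ (by fun_prop)]
  have : IsProbabilityMeasure (μ.map Prod.fst) :=
    Measure.isProbabilityMeasure_map measurable_fst.aemeasurable
  have : IsProbabilityMeasure (μ.map Prod.snd) :=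
    Measure.isProbabilityMeasure_map measurable_snd.aemeasurable
  intro g₁ g₂ m₁ m₂ b₁ b₂
  have e3 : (∫ u, g₁ u.1 ∂μ) * ∫ u, g₂ u.2 ∂μ =
      ∫ u, g₁ u.1 * g₂ u.2 ∂((μ.map Prod.fst).prod (μ.map Prod.snd)) := by
    rw [integral_prod_mul, integral_map measurable_fst.aemeasurable m₁.aestronglyMeasurable,
      integral_map measurable_snd.aemeasurable m₂.aestronglyMeasurable]
  rw [e3]
  refine abs_integral_sub_le hδ (fun f hf hf1 => ?_) (by fun_prop) fun u =>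
    ⟨mul_nonneg (b₁ _).1 (b₂ _).1, mul_le_one₀ (b₁ _).2 (b₂ _).1 (b₂ _).2⟩
  rw [e1, e2, prod_withDensity (by fun_prop) (by fun_prop), hl _ hf,
    lintegral_withDensity_eq_lintegral_mul _ (by fun_prop) hf]
  have h2 : ∫⁻ u, (x u - p u.1 * q u.2 / P) * P⁻¹ ∂(β₁.prod β₂) ≤ ENNReal.ofReal δ := by
    rw [lintegral_mul_const _ (by fun_prop)]
    refine (mul_le_mul_left h _).trans (le_of_eq ?_)
    rw [mul_assoc, ENNReal.mul_inv_cancel h0 h1, mul_one]
  refine le_trans ?_ (add_le_add_right h2 _)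
  rw [← lintegral_add_right _ (by fun_prop)]
  refine lintegral_mono fun u => ?_
  simp only [Pi.mul_apply, div_eq_mul_inv]
  calc x u * P⁻¹ * f u ≤ (p u.1 * q u.2 * P⁻¹ + (x u - p u.1 * q u.2 * P⁻¹)) * P⁻¹ * f u := by
        gcongr; exact le_add_tsub
    _ = p u.1 * P⁻¹ * (q u.2 * P⁻¹) * f u + (x u - p u.1 * q u.2 * P⁻¹) * P⁻¹ * f u := by ring
    _ ≤ _ := add_le_add_right ((mul_le_mul_right (hf1 u) _).trans (mul_one _).le) _

/-- The conclusion of the rigidity theorem. -/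
def Near (ν : Measure (ℝ × ℝ)) (lo : ℝ≥0) (m : ℝ × ℝ) (v e : ℝ≥0) : Prop :=
  ∀ φ : ℝ × ℝ → ℝ≥0∞, Measurable φ → (∀ u, φ u ≤ 1) →
    ∫⁻ z, ∫⁻ ζ, φ (z + ζ) ∂(N2 lo lo) ∂ν ≤ ∫⁻ u, φ u ∂G2 m v v + e

/-- The wide case. -/
lemma Near.wide {ν : Measure (ℝ × ℝ)} {lo v e : ℝ≥0} {m : ℝ × ℝ} (h : Near ν lo m v e)
    (hv : v ≠ 0) {a b A : ℝ≥0} (ha : 2 * lo ≤ a) (hb : 2 * lo ≤ b) (haA : a ≤ A) (hbA : b ≤ A)
    (hA : A ≤ e * v) {f : ℝ × ℝ → ℝ≥0∞} (hf : Measurable f) (hf1 : ∀ u, f u ≤ 1) :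
    ∫⁻ z, ∫⁻ q, f (z + q) ∂N2 (a - lo) (b - lo) ∂ν ≤
      (1 + e) * ∫⁻ u, f u ∂G2 m (v + A) (v + A) + e := by
  obtain ⟨a', rfl⟩ := exists_add_of_le ha
  obtain ⟨b', rfl⟩ := exists_add_of_le hb
  have ea : 2 * lo + a' - lo = lo + a' := by rw [two_mul, add_assoc, add_tsub_cancel_left]
  have eb : 2 * lo + b' - lo = lo + b' := by rw [two_mul, add_assoc, add_tsub_cancel_left]
  have h1 := h (fun u => ∫⁻ q, f (u + q) ∂N2 a' b') (by fun_prop) fun u =>
    (lintegral_mono fun q => hf1 _).trans (by simp)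
  have h2 : ∀ z : ℝ × ℝ, ∫⁻ q, f (z + q) ∂N2 (lo + a') (lo + b') =
      ∫⁻ ζ, ∫⁻ q, f (z + ζ + q) ∂N2 a' b' ∂N2 lo lo := fun z => by
    rw [← lintegral_convN lo lo a' b' (f := fun q => f (z + q)) (by fun_prop)]
    simp only [add_assoc]
  rw [ea, eb]
  simp_rw [h2]
  refine h1.trans (add_le_add_left ?_ _)
  rw [lintegral_conv2 m v v a' b' hf]
  have r1 : (1 + e : ℝ≥0∞) = ENNReal.ofReal (1 + e) := by
    rw [ENNReal.ofReal_add zero_le_one e.coe_nonneg, ENNReal.ofReal_one,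
      ENNReal.ofReal_coe_nnreal]
  have hA' : (A : ℝ) ≤ e * v := by exact_mod_cast hA
  have ha1 : a' ≤ A := le_add_self.trans haA
  have hb1 : b' ≤ A := le_add_self.trans hbA
  rw [r1]
  refine lintegral_G2_le m (by simp [hv]) (by simp [hv]) (by gcongr) (by gcongr) ?_ ?_ hf
  · push_cast
    nlinarith [a'.2, e.2, mul_nonneg e.2 a'.2]
  · push_cast
    nlinarith [b'.2, e.2, mul_nonneg e.2 b'.2]

lemma measurableSet_far (m : ℝ × ℝ) (r : ℝ) : MeasurableSet {u : ℝ × ℝ | r < nsq (u - m)} :=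
  measurableSet_lt measurable_const (by fun_prop)

lemma far_le (m a b : ℝ × ℝ) {r : ℝ} (hr : 0 < r) :
    {u : ℝ × ℝ | 4 * r < nsq (u - m)}.indicator (1 : ℝ × ℝ → ℝ≥0∞) (a + b) ≤
      {u : ℝ × ℝ | r < nsq (u - m)}.indicator 1 a +
        ENNReal.ofReal r⁻¹ * ENNReal.ofReal (nsq b) := by
  refine Set.indicator_apply_le' (fun h => ?_) fun _ => zero_le
  by_cases h1 : r < nsq (a - m)
  · rw [Set.indicator_of_mem (show a ∈ {u : ℝ × ℝ | r < nsq (u - m)} from h1)]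
    exact le_self_add
  · refine le_add_left ?_
    have h2 : 4 * r < nsq (a + b - m) := h
    have h3 := nsq_add_le (a - m) b
    rw [show a - m + b = a + b - m by abel] at h3
    rw [← ENNReal.ofReal_mul (by positivity), Pi.one_apply, ENNReal.one_le_ofReal,
      ← div_eq_inv_mul, le_div_iff₀ hr]
    linarith

/-- The narrow case: the law is concentrated near the centre. -/
lemma Near.narrow {ν : Measure (ℝ × ℝ)} [IsProbabilityMeasure ν] {lo v e : ℝ≥0} {m : ℝ × ℝ}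
    (h : Near ν lo m v e) {r : ℝ} (hr : 0 < r) :
    ∫⁻ u, {u : ℝ × ℝ | 4 * r < nsq (u - m)}.indicator 1 u ∂ν ≤
      ENNReal.ofReal r⁻¹ * (2 * v + 2 * lo) + e := by
  have mi : Measurable ({u : ℝ × ℝ | r < nsq (u - m)}.indicator (1 : ℝ × ℝ → ℝ≥0∞)) :=
    measurable_one.indicator (measurableSet_far m r)
  have h1 := h _ mi fun u => Set.indicator_le_self' (fun _ _ => zero_le) u
  have h2 : ∫⁻ u, {u : ℝ × ℝ | r < nsq (u - m)}.indicator 1 u ∂G2 m v v ≤
      ENNReal.ofReal r⁻¹ * (2 * v) := by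
    rw [two_mul, ← lintegral_nsq_G2 m, ← lintegral_const_mul _ (by fun_prop)]
    refine lintegral_mono fun u => Set.indicator_apply_le' (fun hu => ?_) fun _ => zero_le
    have h2 : r < nsq (u - m) := hu
    rw [← ENNReal.ofReal_mul (by positivity), Pi.one_apply, ENNReal.one_le_ofReal,
      ← div_eq_inv_mul, le_div_iff₀ hr]
    linarith
  have h3 : ∀ z : ℝ × ℝ, {u : ℝ × ℝ | 4 * r < nsq (u - m)}.indicator (1 : ℝ × ℝ → ℝ≥0∞) z ≤
      ∫⁻ ζ, {u : ℝ × ℝ | r < nsq (u - m)}.indicator 1 (z + ζ) ∂N2 lo lo +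
        ENNReal.ofReal r⁻¹ * (2 * lo) := fun z => by
    rw [two_mul, ← lintegral_nsq_N2, ← lintegral_const_mul _ (by fun_prop),
      ← lintegral_add_right _ (by fun_prop)]
    refine le_trans (le_of_eq (by simp)) (lintegral_mono
      (f := fun _ => {u : ℝ × ℝ | 4 * r < nsq (u - m)}.indicator (1 : ℝ × ℝ → ℝ≥0∞) z) fun ζ => ?_)
    have := far_le m (z + ζ) (-ζ) hr
    rwa [add_neg_cancel_right, nsq_neg] at this
  refine (lintegral_mono h3).trans ?_
  rw [lintegral_add_right _ measurable_const, lintegral_const, measure_univ, mul_one]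
  calc _ ≤ ENNReal.ofReal r⁻¹ * (2 * v) + e + ENNReal.ofReal r⁻¹ * (2 * lo) := by
        gcongr
        exact h1.trans (add_le_add_left h2 _)
    _ = _ := by ring

end Pool.Agent.MP_2b113a_an.H46
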