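import Mathlib
import Pool.Agent.MP_2b113a_an.H46.WinB

/-!
The window step: `RigidStmt → WinStmt`.
-/

namespace Pool.Agent.MP_2b113a_an.H46

open MeasureTheory ProbabilityTheory Filter Topology
open scoped ENNReal NNReal Real
open Pool.Agent.MP_2b113a_an.H83

variable {Ω : Type} [MeasurableSpace Ω] {M : Measure Ω} (F : NSFlow Ω M)

/-- Gaussian average of a function along an orbit. -/
noncomputable def wavg (φ : Ω → ℝ≥0∞) (a b : ℝ≥0) (x : Ω) : ℝ≥0∞ := ∫⁻ q, φ (F.τ q x) ∂N2 a b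

@[fun_prop] lemma measurable_wavg {φ : Ω → ℝ≥0∞} (hφ : Measurable φ) (a b : ℝ≥0) :
    Measurable (wavg F φ a b) := by
  unfold wavg; fun_prop

lemma lintegral_wavg [SFinite M] {φ : Ω → ℝ≥0∞} (hφ : Measurable φ) {lo a b : ℝ≥0} (ha : lo ≤ a)
    (hb : lo ≤ b) : ∫⁻ x, F.hh lo lo x * wavg F φ (a - lo) (b - lo) x ∂M =
      ∫⁻ x, φ x * F.hh a b x ∂M := by
  rw [hh_cv F ha hb, F.lintegral_mul_cv (by fun_prop) hφ]
  refine lintegral_congr fun x => ?_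
  rw [wavg, lintegral_N2_neg _ _ (f := fun q => φ (F.τ q x)) (by fun_prop)]

/-- The second moment of the displacement. -/
noncomputable def mom1 (lo σ : ℝ≥0) (y : Ω) : ℝ≥0∞ :=
  ∫⁻ u, F.tl (F.hh lo lo) y u * ENNReal.ofReal (nsq u) ∂N2 (σ - lo) (σ - lo)

@[fun_prop] lemma measurable_mom1 (lo σ : ℝ≥0) : Measurable (mom1 F lo σ) := by
  unfold mom1; fun_prop

@[fun_prop] lemma measurable_dep (a a' b b' : ℝ≥0) :
    Measurable (F.dep (fun _ => 1) a a' b b') := by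
  unfold NSFlow.dep; fun_prop

lemma lintegral_mom1 [IsProbabilityMeasure M] (lo σ : ℝ≥0) :
    ∫⁻ y, mom1 F lo σ y ∂M ≤ 2 * σ := by
  simp only [mom1]
  rw [lintegral_lintegral_swap (by fun_prop)]
  have : ∀ u, ∫⁻ y, F.tl (F.hh lo lo) y u * ENNReal.ofReal (nsq u) ∂M = ENNReal.ofReal (nsq u) :=
    fun u => by
      rw [lintegral_mul_const _ (by fun_prop), F.lintegral_tl (by fun_prop), lintegral_hh, one_mul]
  simp_rw [this]
  rw [lintegral_nsq_N2, two_mul]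
  gcongr <;> exact tsub_le_self

lemma lintegral_mom [IsProbabilityMeasure M] (lo σ : ℝ≥0) :
    ∫⁻ y, mom F lo σ y ∂M = 2 * lo := by
  simp only [mom]
  rw [lintegral_lintegral_swap (by fun_prop)]
  have : ∀ u, ∫⁻ y, ∫⁻ ζ, F.W (ζ + u) y * ENNReal.ofReal (nsq ζ) ∂N2 lo lo ∂M = 2 * lo :=
    fun u => by
      rw [lintegral_lintegral_swap (by fun_prop), two_mul, ← lintegral_nsq_N2]
      refine lintegral_congr fun ζ => ?_
      have h := F.lintegral_tl (X := fun _ => 1) measurable_const (ζ + u)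
      simp only [F.tl_one, lintegral_one, measure_univ] at h
      rw [lintegral_mul_const _ (by fun_prop), h, one_mul]
  simp [this]

lemma le_mul_of_not {P B a : ℝ≥0∞} (h0 : a ≠ 0) (h1 : a ≠ ∞) (h : ¬P ≤ a⁻¹ * B) : B ≤ a * P := by
  have := mul_le_mul_right (not_le.1 h).le a
  rwa [← mul_assoc, ENNReal.mul_inv_cancel h0 h1, one_mul] at this

lemma point {c s : ℝ} (hcs : c ^ 2 + s ^ 2 = 1) {lo σ t A a b a' b' M₀ e : ℝ≥0} {δ : ℝ}
    (hδ : 0 < δ) (hlo : lo ≠ 0) (hM : M₀ ≠ 0) (hlt : lo ≤ t) (htσ : t ≤ σ)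
    (ha : 2 * lo ≤ a ∧ a ≤ A) (hb : 2 * lo ≤ b ∧ b ≤ A) (ha' : 2 * lo ≤ a' ∧ a' ≤ A)
    (hb' : 2 * lo ≤ b' ∧ b' ≤ A) (hA : A ≤ e * t) (he : e ≤ 4⁻¹)
    (hR : ∀ (ν : Measure (ℝ × ℝ)) [IsProbabilityMeasure ν],
      ∫⁻ u, ENNReal.ofReal (u.1 ^ 2 + u.2 ^ 2) ∂ν ≤ (M₀ * σ : ℝ≥0) → Dep ν δ →
      Dep (ν.map (rot c (-s))) δ →
      ∃ (m : ℝ × ℝ) (v : ℝ≥0), v ≠ 0 ∧ m.1 ^ 2 + m.2 ^ 2 ≤ (2 * M₀ + 4) * σ ∧ Near ν lo m v e)
    {φ ψ : Ω → ℝ≥0∞} (hφ : Measurable φ) (hψ : Measurable ψ) (h2 : ∀ x, φ x + ψ x ≤ 1) {y : Ω}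
    (h1 : F.hh σ σ y ≠ ∞) :
    F.cv (fun x => F.hh lo lo x * (wavg F φ (a - lo) (b - lo) x + wavg F ψ (a' - lo) (b' - lo) x))
      (N2 (σ - lo) (σ - lo)) y ≤ (1 + 3 * e) * F.hh σ σ y +
      2 * (((M₀ * σ : ℝ≥0) : ℝ≥0∞)⁻¹ * mom1 F lo σ y + ((M₀ * lo : ℝ≥0) : ℝ≥0∞)⁻¹ * mom F lo σ y +
        (ENNReal.ofReal δ)⁻¹ * F.dep (fun _ => 1) lo σ lo σ y +
        (ENNReal.ofReal δ)⁻¹ * (F.rotate c s).dep (fun _ => 1) lo σ lo σ y +
        (cst M₀)⁻¹ * F.cv (rat F t σ) (N2 σ σ) y) := by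
  have hlσ := hlt.trans htσ
  have ht : t ≠ 0 := fun h => hlo (le_antisymm (h ▸ hlt) zero_le)
  have hσ : σ ≠ 0 := fun h => ht (le_antisymm (h ▸ htσ) zero_le)
  have := post_prob F hlσ h1
  have φ1 : ∀ x, φ x ≤ 1 := fun x => le_self_add.trans (h2 x)
  have ψ1 : ∀ x, ψ x ≤ 1 := fun x => le_add_self.trans (h2 x)
  have eD : F.cv (fun x => F.hh lo lo x *
      (wavg F φ (a - lo) (b - lo) x + wavg F ψ (a' - lo) (b' - lo) x)) (N2 (σ - lo) (σ - lo)) y =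
      F.hh σ σ y * (∫⁻ z, ∫⁻ q, φ (F.τ (z + q) y) ∂N2 (a - lo) (b - lo) ∂post F lo σ y +
        ∫⁻ z, ∫⁻ q, ψ (F.τ (z + q) y) ∂N2 (a' - lo) (b' - lo) ∂post F lo σ y) := by
    rw [← lintegral_add_left (by fun_prop), mul_post F h1 (by fun_prop)]
    refine lintegral_congr fun u => ?_
    simp only [NSFlow.tl, wavg, ← F.τ_add, add_comm u]
    ring
  rw [eD]
  set P := F.hh σ σ y with hP
  by_cases hbad : P ≤ ((M₀ * σ : ℝ≥0) : ℝ≥0∞)⁻¹ * mom1 F lo σ y +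
      ((M₀ * lo : ℝ≥0) : ℝ≥0∞)⁻¹ * mom F lo σ y +
        (ENNReal.ofReal δ)⁻¹ * F.dep (fun _ => 1) lo σ lo σ y +
        (ENNReal.ofReal δ)⁻¹ * (F.rotate c s).dep (fun _ => 1) lo σ lo σ y +
        (cst M₀)⁻¹ * F.cv (rat F t σ) (N2 σ σ) y
  · refine le_add_left (le_trans ?_ (mul_le_mul_right hbad _))
    rw [mul_comm, ← one_add_one_eq_two]
    gcongr
    · exact (lintegral_mono fun z => lintegral_mono fun q => φ1 _).trans (by simp)
    · exact (lintegral_mono fun z => lintegral_mono fun q => ψ1 _).trans (by simp)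
  refine le_add_right ?_
  have d0 : ENNReal.ofReal δ ≠ 0 := by simpa using hδ
  have g1 := le_mul_of_not (by simp [hM, hσ]) ENNReal.coe_ne_top fun h =>
    hbad (h.trans (le_add_right (le_add_right (le_add_right le_self_add))))
  have g2 := le_mul_of_not (by simp [hM, hlo]) ENNReal.coe_ne_top fun h =>
    hbad (h.trans (le_add_right (le_add_right (le_add_right le_add_self))))
  have g3 := le_mul_of_not d0 ENNReal.ofReal_ne_top fun h =>
    hbad (h.trans (le_add_right (le_add_right le_add_self)))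
  have g4 := le_mul_of_not d0 ENNReal.ofReal_ne_top fun h =>
    hbad (h.trans (le_add_right le_add_self))
  have k1 : ∫⁻ u, ENNReal.ofReal (u.1 ^ 2 + u.2 ^ 2) ∂post F lo σ y ≤ (M₀ * σ : ℝ≥0) := by
    rw [← ENNReal.mul_le_mul_iff_right (hh_ne_zero F σ σ y) h1, mul_post F h1 (by fun_prop),
      mul_comm]
    exact g1
  have k2 : Dep ((post F lo σ y).map (rot c (-s))) δ := by
    rw [← post_rotate F hcs]
    refine dep_post _ hlσ (by rwa [rotate_hh F hcs]) hδ.le ?_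
    rwa [rotate_hh F hcs]
  obtain ⟨m, v, hv, hm, hN⟩ := hR _ k1 (dep_post F hlσ h1 hδ.le g3) k2
  rcases le_total v t with hvt | hvt
  · refine absurd (le_add_left ?_) hbad
    have := narrow_case F h1 hN (by simpa using g2) ht hvt hlt htσ he hm
    have h3 := mul_le_mul_right this (cst M₀)⁻¹
    rwa [← mul_assoc, ENNReal.inv_mul_cancel (cst_ne_zero _) (cst_ne_top _), one_mul] at h3
  · have hA' : A ≤ e * v := hA.trans (by gcongr)
    have w1 := hN.wide hv ha.1 hb.1 ha.2 hb.2 hA' (f := fun z => φ (F.τ z y)) (by fun_prop)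
      fun u => φ1 _
    have w2 := hN.wide hv ha'.1 hb'.1 ha'.2 hb'.2 hA' (f := fun z => ψ (F.τ z y)) (by fun_prop)
      fun u => ψ1 _
    have w3 : ∫⁻ u, φ (F.τ u y) ∂G2 m (v + A) (v + A) +
        ∫⁻ u, ψ (F.τ u y) ∂G2 m (v + A) (v + A) ≤ 1 := by
      rw [← lintegral_add_left (by fun_prop)]
      exact (lintegral_mono fun u => h2 _).trans (by simp)
    rw [mul_comm]
    refine mul_le_mul_left ((add_le_add w1 w2).trans ?_) _
    calc _ = (1 + e) * (∫⁻ u, φ (F.τ u y) ∂G2 m (v + A) (v + A) +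
          ∫⁻ u, ψ (F.τ u y) ∂G2 m (v + A) (v + A)) + 2 * e := by ring
      _ ≤ (1 + e) * 1 + 2 * e := by gcongr
      _ = _ := by ring

lemma inv_mul_le_of {a B e : ℝ≥0∞} (h : B ≤ a * e) : a⁻¹ * B ≤ e := by
  refine (mul_le_mul_right h _).trans ?_
  rw [← mul_assoc]
  exact (mul_le_mul_left (ENNReal.inv_mul_le_one _) _).trans (one_mul _).le

lemma bound [IsProbabilityMeasure M] {c s : ℝ} (hcs : c ^ 2 + s ^ 2 = 1)
    {lo σ t A a b a' b' e : ℝ≥0} {δ : ℝ}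
    (hδ : 0 < δ) (hlo : lo ≠ 0) (he0 : e ≠ 0) (hlt : lo ≤ t) (htσ : t ≤ σ)
    (ha : 2 * lo ≤ a ∧ a ≤ A) (hb : 2 * lo ≤ b ∧ b ≤ A) (ha' : 2 * lo ≤ a' ∧ a' ≤ A)
    (hb' : 2 * lo ≤ b' ∧ b' ≤ A) (hA : A ≤ e * t) (he : e ≤ 4⁻¹)
    (hR : ∀ (ν : Measure (ℝ × ℝ)) [IsProbabilityMeasure ν],
      ∫⁻ u, ENNReal.ofReal (u.1 ^ 2 + u.2 ^ 2) ∂ν ≤ (e⁻¹ * σ : ℝ≥0) → Dep ν δ →
      Dep (ν.map (rot c (-s))) δ →
      ∃ (m : ℝ × ℝ) (v : ℝ≥0), v ≠ 0 ∧ m.1 ^ 2 + m.2 ^ 2 ≤ (2 * (e⁻¹ : ℝ≥0) + 4) * σ ∧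
        Near ν lo m v e)
    (d1 : ∫⁻ y, F.dep (fun _ => 1) lo σ lo σ y ∂M ≤ ENNReal.ofReal δ * e)
    (d2 : ∫⁻ y, (F.rotate c s).dep (fun _ => 1) lo σ lo σ y ∂M ≤ ENNReal.ofReal δ * e)
    (d3 : ∫⁻ y, rat F t σ y ∂M ≤ cst e⁻¹ * e) :
    ∫⁻ y, F.hh a b y - F.hh a' b' y ∂M ≤ 17 * e := by
  let S : Set Ω := {y | F.hh a' b' y < F.hh a b y}
  have hS : MeasurableSet S := measurableSet_lt (by fun_prop) (by fun_prop)
  have hφ : Measurable (S.indicator (1 : Ω → ℝ≥0∞)) := measurable_one.indicator hS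
  have hψ : Measurable (Sᶜ.indicator (1 : Ω → ℝ≥0∞)) := measurable_one.indicator hS.compl
  have h2 : ∀ x, S.indicator (1 : Ω → ℝ≥0∞) x + Sᶜ.indicator 1 x ≤ 1 := fun x => by
    by_cases hx : x ∈ S <;> simp [hx]
  have hfin : ∀ᵐ y ∂M, F.hh σ σ y < ∞ := ae_lt_top (by fun_prop) (by rw [lintegral_hh]; simp)
  have h3 := lintegral_mono_ae (hfin.mono fun y hy => point F hcs hδ hlo (inv_ne_zero he0) hlt htσ
    ha hb ha' hb' hA he hR hφ hψ h2 hy.ne)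
  have l2 : ∀ {x : ℝ≥0}, 2 * lo ≤ x → lo ≤ x := fun h =>
    le_trans (by rw [two_mul]; exact le_self_add) h
  rw [F.lintegral_cv_prob (by fun_prop)] at h3
  simp_rw [mul_add (F.hh lo lo _)] at h3
  rw [lintegral_add_left (by fun_prop), lintegral_wavg F hφ (l2 ha.1) (l2 hb.1),
    lintegral_wavg F hψ (l2 ha'.1) (l2 hb'.1), lintegral_add_left (by fun_prop),
    lintegral_const_mul _ (by fun_prop), lintegral_const_mul _ (by fun_prop),
    lintegral_add_left (by fun_prop), lintegral_add_left (by fun_prop),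
    lintegral_add_left (by fun_prop), lintegral_add_left (by fun_prop),
    lintegral_const_mul _ (by fun_prop), lintegral_const_mul _ (by fun_prop),
    lintegral_const_mul _ (by fun_prop), lintegral_const_mul _ (by fun_prop),
    lintegral_const_mul _ (by fun_prop), F.lintegral_cv_prob (by fun_prop), lintegral_hh,
    lintegral_mom, ← lintegral_add_left (by fun_prop)] at h3
  have h4 : ∫⁻ y, S.indicator 1 y * F.hh a b y + Sᶜ.indicator 1 y * F.hh a' b' y ∂M =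
      1 + ∫⁻ y, F.hh a b y - F.hh a' b' y ∂M := by
    rw [← lintegral_hh F a' b', ← lintegral_add_left (by fun_prop)]
    refine lintegral_congr fun y => ?_
    by_cases hy : y ∈ S
    · have : F.hh a' b' y < F.hh a b y := hy
      simp [hy, add_tsub_cancel_of_le this.le]
    · have : F.hh a b y ≤ F.hh a' b' y := not_lt.1 hy
      simp [hy, tsub_eq_zero_of_le this]
  have q1 : ∀ x : ℝ≥0, (2 * x : ℝ≥0∞) ≤ ((e⁻¹ * x : ℝ≥0) : ℝ≥0∞) * (2 * e) := fun x => by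
    have : e⁻¹ * x * (2 * e) = 2 * x := by field_simp
    exact_mod_cast this.ge
  have h5 := h3.trans (add_le_add_right (mul_le_mul_right (add_le_add (add_le_add (add_le_add
    (add_le_add (inv_mul_le_of ((lintegral_mom1 F lo σ).trans (q1 σ))) (inv_mul_le_of (q1 lo)))
    (inv_mul_le_of d1)) (inv_mul_le_of d2)) (inv_mul_le_of d3)) 2) _)
  rw [h4] at h5
  refine (ENNReal.add_le_add_iff_left ENNReal.one_ne_top).1 (h5.trans (le_of_eq ?_))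
  ring

lemma key (hR : RigidStmt) [IsProbabilityMeasure M] {κ : ℝ≥0} (hκ : 4 ≤ κ) {c s : ℝ}
    (hcs : c ^ 2 + s ^ 2 = 1) (hc : c ≠ 0) (hs : s ≠ 0) (hE : F.EmpOut κ) (N : ℕ) {ε : ℝ≥0∞}
    (hε : ε ≠ 0) : ∃ (K : ℕ) (d : ℝ≥0∞), K ≠ 0 ∧ d ≠ 0 ∧ ∀ᶠ T : ℕ in atTop,
      ∫⁻ y, F.dep (fun _ => 1) (κ ^ T) (κ ^ (T + K)) (κ ^ T) (κ ^ (T + K)) y ∂M ≤ d →
      ∫⁻ y, (F.rotate c s).dep (fun _ => 1) (κ ^ T) (κ ^ (T + K)) (κ ^ T) (κ ^ (T + K)) y ∂M ≤ d →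
      F.Win κ N (T + (N + 1)) ε := by
  obtain ⟨e₀, h0, h17⟩ := ENNReal.exists_nnreal_pos_mul_lt (a := 17) (by simp) hε
  obtain ⟨e, he0, he, he17⟩ : ∃ e : ℝ≥0, e ≠ 0 ∧ e ≤ 4⁻¹ ∧ (17 * e : ℝ≥0∞) ≤ ε :=
    ⟨min e₀ 4⁻¹, (lt_min h0 (by norm_num)).ne', min_le_right _ _, le_trans (by
      rw [mul_comm]; gcongr; exact min_le_left _ _) h17.le⟩
  have k1 : 1 < κ := lt_of_lt_of_le (by norm_num) hκ
  have k2 : 2 ≤ κ := le_trans (by norm_num) hκ
  have k0 : κ ≠ 0 := (zero_lt_one.trans k1).ne'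
  have mono : ∀ {i j : ℕ}, i ≤ j → κ ^ i ≤ κ ^ j := fun h => pow_le_pow_right₀ k1.le h
  have mono2 : ∀ {i j : ℕ}, i + 1 ≤ j → 2 * κ ^ i ≤ κ ^ j := fun {i j} h =>
    le_trans (by rw [pow_succ, mul_comm]; gcongr) (mono h)
  obtain ⟨j, hj⟩ := pow_unbounded_of_one_lt e⁻¹ k1
  obtain ⟨Ne, hNe⟩ := hE (cst e⁻¹ * e) (mul_ne_zero (cst_ne_zero _) (by simpa using he0))
  let K := N + 1 + N + j + Ne + 1
  obtain ⟨δ, hδ, hR'⟩ := hR c (-s) (by rwa [neg_sq]) hc (neg_ne_zero.2 hs) e⁻¹ (κ ^ K)⁻¹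
    (by positivity) (inv_le_one_of_one_le₀ (one_le_pow₀ k1.le)) e he0
  refine ⟨K, ENNReal.ofReal δ * e, by simp [K], mul_ne_zero (by simpa using hδ)
    (by simpa using he0), ?_⟩
  filter_upwards [(tendsto_add_atTop_nat (N + 1 + N + j)).eventually hNe] with T hT d1 d2 k hk
  refine le_trans (bound F hcs (t := κ ^ (T + (N + 1 + N + j))) (A := κ ^ (T + (N + 1) + N)) hδ
    (by positivity) he0 (mono (by omega)) (mono (by omega)) ⟨mono2 (by omega), mono (by omega)⟩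
    ⟨mono2 (by omega), mono (by omega)⟩ ⟨mono2 (by omega), mono (by omega)⟩
    ⟨mono2 (by omega), mono (by omega)⟩ ?_ he (fun ν _ a1 a2 a3 => ?_) d1 d2 ?_) he17
  · rw [show T + (N + 1 + N + j) = j + (T + (N + 1) + N) by omega, pow_add κ j, ← mul_assoc]
    refine le_mul_of_one_le_left zero_le ?_
    rw [← mul_inv_cancel₀ he0]
    gcongr
  · obtain ⟨m, v, b1, b2, b3⟩ := hR' (κ ^ (T + K)) (by positivity) ν a1 a2 a3
    refine ⟨m, v, b1, b2, ?_⟩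
    rwa [show κ ^ (T + K) * (κ ^ K)⁻¹ = κ ^ T by rw [pow_add]; field_simp] at b3
  · refine le_trans (lintegral_mono fun y => ?_) hT
    rw [rat, NNReal.coe_pow, NNReal.coe_pow]
    refine mul_le_mul_left (ENNReal.inv_le_inv.2 (F.ms_mono (by positivity) ?_ y)) _
    have := mono2 (i := T + (N + 1 + N + j) + Ne) (j := T + K) (by omega)
    rw [le_div_iff₀ two_pos, mul_comm]
    exact_mod_cast this

lemma exists_le_of_sum {f : ℕ → ℝ≥0∞} {n : ℕ} (hn : n ≠ 0) {d : ℝ≥0∞}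
    (h : ∑ T ∈ Finset.range n, f T ≤ n * d) : ∃ T, f T ≤ d := by
  by_contra hc
  push Not at hc
  have := ENNReal.sum_lt_sum_of_nonempty (s := Finset.range n) (f := fun _ => d) (g := f)
    (by simpa using hn) fun T _ => hc T
  rw [Finset.sum_const, Finset.card_range, nsmul_eq_mul] at this
  exact absurd h (not_le.2 this)

theorem win : RigidStmt → WinStmt := by
  intro hR Ω _ M _ F κ c s hκ hcs hc hs E1 E2 hE N ε hε
  have hE' : (F.rotate c s).EmpOut κ := by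
    simpa only [NSFlow.EmpOut, rotate_ms F hcs] using hE
  obtain ⟨K₁, d₁, k1, d1, H1⟩ := key F hR hκ hcs hc hs hE N hε
  obtain ⟨K₂, d₂, k2, d2, H2⟩ := key (F.rotate c s) hR hκ (c := c) (s := -s) (by rwa [neg_sq]) hc
    (neg_ne_zero.2 hs) hE' N hε
  rw [rotate_rotate F hcs] at H2
  have hd : min d₁ d₂ / 4 ≠ 0 :=
    ENNReal.div_ne_zero.2 ⟨(lt_min d1.bot_lt d2.bot_lt).ne', by simp⟩
  obtain ⟨n, ⟨a1, a2, a3, a4⟩, hn⟩ := (((E1 K₁ _ k1 hd).and ((E2 K₁ _ k1 hd).and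
    ((E1 K₂ _ k2 hd).and (E2 K₂ _ k2 hd)))).and (eventually_ne_atTop 0)).exists
  obtain ⟨T₁, hT₁⟩ := eventually_atTop.1 (H1.and H2)
  refine frequently_atTop.2 fun a => ?_
  obtain ⟨T₀, ⟨b1, b2, b3, b4⟩, b5⟩ :=
    ((a1.and (a2.and (a3.and a4))).and (eventually_ge_atTop (max a T₁))).exists
  have hsum := add_le_add (add_le_add b1 b2) (add_le_add b3 b4)
  rw [← Finset.sum_add_distrib, ← Finset.sum_add_distrib, ← Finset.sum_add_distrib,
    ← mul_add, ← mul_add] at hsum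
  obtain ⟨T, hT⟩ := exists_le_of_sum hn hsum
  have e4 : min d₁ d₂ / 4 + min d₁ d₂ / 4 + (min d₁ d₂ / 4 + min d₁ d₂ / 4) = min d₁ d₂ := by
    rw [← two_mul, ← two_mul, ← mul_assoc, show (2 * 2 : ℝ≥0∞) = 4 by norm_num,
      ENNReal.mul_div_cancel (by simp) (by simp)]
  rw [e4] at hT
  obtain ⟨c1, c2⟩ := hT₁ (T₀ + T) (by omega)
  refine ⟨T₀ + T + (N + 1), by omega, c1 ?_ ?_, c2 ?_ ?_⟩
  · exact (le_add_right le_self_add).trans (hT.trans (min_le_left _ _))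
  · exact (le_add_right le_add_self).trans (hT.trans (min_le_left _ _))
  · exact (le_add_left le_add_self).trans (hT.trans (min_le_right _ _))
  · exact (le_add_left le_self_add).trans (hT.trans (min_le_right _ _))

end Pool.Agent.MP_2b113a_an.H46
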